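import Pool.Agent.H18.TXB.Targets
import Pool.Agent.H54.BKH.BDV
import Pool.Agent.H33.TX.RLA

/-!
# BDY: a hypersurface meets a curve in finitely many points

Port of `Pool.Agent.H54.BKH.pf_BDV` to five homogeneous coordinates.
-/

set_option autoImplicit false

open MvPolynomial
open Pool.Agent.H12.ZD (pmap)
open Pool.Agent.H18.HIT Pool.Agent.H18.HX Pool.Agent.H18.VZ
open Pool.Agent.H8.ZA (HFam Const NA)
open Pool.Agent.H8.TD (lc dg Cop)
open Pool.Agent.H8.TX
open Pool.Agent.H18.TE (lg Gc)
open Pool.Agent.H18.TXB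
open Pool.Agent.H33.TX (rla_setup rla_hom_iff xi Kx xi_mem rla_tr rla_hom_val rla_aeval_mem
  rla_trdeg HH HH_map HH_eq)
open Pool.Agent.H54.BKH (strip relat)

namespace Pool.Agent.H39.TXB

theorem pf_BDY (hCTD : Pool.Agent.H8.TD.T_CTD) : T_BDY := by
  classical
  intro I P p S S' D hI hom hX1 hmon hPI hpD hp hS hS' hS0 hS0' hrel
  obtain ⟨L, _, _, π, hker, hfr, hext⟩ := rla_setup I hI
  have hx0 : π (X 1) ≠ 0 := fun h0 => hX1 ((hker _).1 h0)
  have htr : Transcendental (Kx π) (π (X 1)) := by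
    apply rla_tr π hx0
    intro c hc
    exact hext (fun i => C c * X i) (rla_hom_iff I hom c hc)
  have htd := rla_trdeg hCTD π hfr htr P hmon ((hker _).2 hPI) S S' ((hker _).2 hS)
    ((hker _).2 hS') hS0 hS0' hrel
  have hpv := rla_hom_val π hx0 p D hpD
  obtain ⟨r, hr⟩ : ∃ r : L, r = aeval (xi π) p := ⟨_, rfl⟩
  rw [← hr] at hpv
  have hr0 : r ≠ 0 := by
    rintro rfl
    rw [mul_zero] at hpv
    exact hp ((hker _).1 hpv)
  have hmain : ∀ i : Fin 5, ∃ f : Polynomial Qb, f ≠ 0 ∧ ∀ y : Fin 5 → Qb,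
      (∀ q ∈ I, eval y q = 0) → y 1 ≠ 0 → eval y p = 0 → f.eval (y i / y 1) = 0 := by
    intro i
    by_cases halg : IsAlgebraic Qb r
    · refine ⟨1, one_ne_zero, fun y hy hy0 hyp => ?_⟩
      exfalso
      obtain ⟨c, hc⟩ : ∃ c : Qb, algebraMap Qb L c = r := by
        have h1 := IsAlgClosed.degree_eq_one_of_irreducible Qb
          (minpoly.irreducible halg.isIntegral)
        obtain ⟨c, hc⟩ := minpoly.mem_range_of_degree_eq_one Qb r h1
        exact ⟨c, hc⟩
      have h1 : p - C c * X 1 ^ D ∈ I := by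
        rw [← hker, map_sub, hpv, map_mul, map_pow, ← hc]
        have h2 : π (C c) = algebraMap Qb L c := AlgHom.commutes π c
        rw [h2]
        ring
      have h3 := hy _ h1
      rw [map_sub, hyp, map_mul, map_pow, eval_C, eval_X, zero_sub, neg_eq_zero] at h3
      rcases mul_eq_zero.1 h3 with h4 | h4
      · apply hr0
        rw [← hc, h4, map_zero]
      · exact pow_ne_zero D hy0 h4
    · have hrm : r ∈ Kx π := by
        rw [hr]
        exact rla_aeval_mem π p
      have htr' : Transcendental Qb (⟨r, hrm⟩ : Kx π) := by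
        intro h
        apply halg
        exact h.algebraMap (A := L)
      obtain ⟨G, hG0, hG⟩ := relat htd (⟨r, hrm⟩ : Kx π) ⟨xi π i, xi_mem π i⟩ htr'
      have hGL : G.eval₂ (Polynomial.aeval r : Polynomial Qb →ₐ[Qb] L).toRingHom (xi π i) = 0 := by
        have h1 := congrArg (algebraMap (Kx π) L) hG
        rw [map_zero, Polynomial.hom_eval₂] at h1
        have h2 : (algebraMap (Kx π) L).comp
            (Polynomial.aeval (⟨r, hrm⟩ : Kx π) : Polynomial Qb →ₐ[Qb] Kx π).toRingHom =
            (Polynomial.aeval r : Polynomial Qb →ₐ[Qb] L).toRingHom := by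
          refine RingHom.ext fun q => ?_
          exact (Polynomial.aeval_algebraMap_apply L (⟨r, hrm⟩ : Kx π) q).symm
        rw [h2] at h1
        exact h1
      obtain ⟨G', hG'0, hG'⟩ := strip r (xi π i) hr0 _ G rfl hG0 hGL
      refine ⟨G'.map (Polynomial.evalRingHom 0), hG'0, fun y hy hy0 hyp => ?_⟩
      obtain ⟨N, hN⟩ : ∃ N, ∀ m, (G'.coeff m).natDegree ≤ N := by
        refine ⟨∑ m ∈ Finset.range (G'.natDegree + 1), (G'.coeff m).natDegree, fun m => ?_⟩
        by_cases hm : m ≤ G'.natDegree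
        · exact Finset.single_le_sum (f := fun m => (G'.coeff m).natDegree)
            (fun _ _ => Nat.zero_le _) (Finset.mem_range.2 (by omega))
        · rw [Polynomial.coeff_eq_zero_of_natDegree_lt (by omega), Polynomial.natDegree_zero]
          exact Nat.zero_le _
      have hmem : HH G' N G'.natDegree p (X 1 ^ D : Po 5 Qb) (X i) (X 1) ∈ I := by
        rw [← hker, HH_map]
        have h1 : π p = r * π (X 1 ^ D) := by
          rw [hpv, map_pow]
          ring
        have h2 : π (X i) = xi π i * π (X 1) := by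
          unfold xi
          rw [div_mul_cancel₀ _ hx0]
        rw [h1, h2, HH_eq G' _ _ hN le_rfl, hG', mul_zero]
      have h1 := hy _ hmem
      have h2 : eval y (HH G' N G'.natDegree p (X 1 ^ D : Po 5 Qb) (X i) (X 1)) =
          HH G' N G'.natDegree (0 * y 1 ^ D) (y 1 ^ D) (y i / y 1 * y 1) (y 1) := by
        have h3 := HH_map G' N G'.natDegree (aeval y : Po 5 Qb →ₐ[Qb] Qb) p (X 1 ^ D) (X i) (X 1)
        rw [aeval_X, aeval_X, map_pow, aeval_X] at h3
        have h4 : (aeval y : Po 5 Qb →ₐ[Qb] Qb) p = 0 * y 1 ^ D := by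
          rw [zero_mul]
          exact hyp
        rw [h4] at h3
        rw [div_mul_cancel₀ _ hy0]
        exact h3
      rw [h2, HH_eq G' _ _ hN le_rfl] at h1
      have h7 := (mul_eq_zero.1 h1).resolve_left
        (mul_ne_zero (pow_ne_zero _ (pow_ne_zero _ hy0)) (pow_ne_zero _ hy0))
      rw [Polynomial.eval_map]
      exact h7
  choose f hf0 hf using hmain
  refine Set.Finite.subset (Set.Finite.pi' (t := fun i : Fin 5 => {z | (f i).IsRoot z})
    fun i => Polynomial.finite_setOfPred_isRoot (hf0 i)) ?_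
  rintro w ⟨y, hy, hy0, hyp, rfl⟩ i
  exact hf i y hy hy0 hyp

end Pool.Agent.H39.TXB
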